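import Pool.Agent.Lib.MP_c5838f_co.SP.Iface

/-!
# ASY: the choice of `p` and `D` in terms of `n`
-/

set_option autoImplicit false

open Finset Filter

namespace Pool.Agent.Lib.MP_c5838f_co.SP.H15

theorem log_small : ∀ᶠ x : ℝ in atTop, Real.log x ≤ x / 80 := by
  have h := Real.isLittleO_log_id_atTop.bound (show (0 : ℝ) < 1 / 80 by norm_num)
  filter_upwards [h, eventually_ge_atTop (0 : ℝ)] with x hx h0
  have h1 : Real.log x ≤ |Real.log x| := le_abs_self _
  rw [Real.norm_eq_abs, Real.norm_eq_abs, id, abs_of_nonneg h0] at hx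
  linarith

theorem asy_aux (n : ℕ) (h100 : 100 ≤ Real.log n) (hl : Real.log (Real.log n) ≤ Real.log n / 80) :
    ∃ p D : ℕ, p.Prime ∧ 1 ≤ D ∧ 2 * (4 * D) ^ (4 * D) ≤ p ∧
    p ^ 3 ≤ n ∧
    96 * Real.exp (Real.log n ^ 2 / (100 * Real.log (Real.log n)))
      ≤ ((p : ℝ) / (96 * (D : ℝ))) ^ D := by
  have hn0 : (n : ℝ) ≠ 0 := by
    intro h
    rw [h, Real.log_zero] at h100
    norm_num at h100
  have hnpos : (0 : ℝ) < n := lt_of_le_of_ne (Nat.cast_nonneg n) (Ne.symm hn0)
  set L := Real.log n with hL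
  set l := Real.log L with hl'
  have hLpos : 0 < L := by linarith
  have hexp1 : Real.exp 1 < 3 := lt_trans Real.exp_one_lt_d9 (by norm_num)
  have hl1 : 1 ≤ l := by
    rw [hl', Real.le_log_iff_exp_le hLpos]
    linarith
  have hlpos : 0 < l := by linarith
  have hnexp : Real.exp L = n := Real.exp_log hnpos
  -- the cube root
  set r := Real.exp (L / 3) with hr
  have hr3 : r ^ 3 = n := by
    rw [hr, ← Real.exp_nat_mul, ← hnexp]
    congr 1
    push_cast
    ring
  have hrpos : 0 < r := Real.exp_pos _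
  have hr2 : 2 ≤ r := by
    have := Real.add_one_le_exp (L / 3)
    linarith
  set m := ⌊r⌋₊ with hm
  have hmr : (m : ℝ) ≤ r := Nat.floor_le hrpos.le
  have hm2 : 2 ≤ m := Nat.le_floor (by exact_mod_cast hr2)
  have hmlt : r < m + 1 := Nat.lt_floor_add_one r
  obtain ⟨p, hp, hkp, hp2⟩ := Nat.exists_prime_lt_and_le_two_mul (m / 2) (by omega)
  have hpm : p ≤ m := by omega
  have hmp : m + 1 ≤ 2 * p := by omega
  have hpr : r / 2 < p := by
    have : ((m : ℝ) + 1) ≤ 2 * p := by exact_mod_cast hmp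
    linarith
  have hp3 : p ^ 3 ≤ n := by
    have h1 : ((p : ℝ)) ^ 3 ≤ r ^ 3 :=
      pow_le_pow_left₀ (Nat.cast_nonneg p) (le_trans (by exact_mod_cast hpm) hmr) 3
    rw [hr3] at h1
    exact_mod_cast h1
  -- the exponent
  set D := ⌊L / (16 * l)⌋₊ with hD
  have h16 : 0 < 16 * l := by linarith
  have hq : 0 ≤ L / (16 * l) := by positivity
  have hDle : (D : ℝ) ≤ L / (16 * l) := Nat.floor_le hq
  have hDlt : L / (16 * l) < D + 1 := Nat.lt_floor_add_one _
  have h80 : 80 * l ≤ L := by linarith
  have hDge : L / (20 * l) ≤ D := by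
    have h1 : L / (16 * l) = L / (20 * l) + L / (80 * l) := by
      field_simp
      ring
    have h2 : 1 ≤ L / (80 * l) := by
      rw [le_div_iff₀ (by linarith)]
      linarith
    linarith
  have hD1 : 1 ≤ D := by
    have h2 : 4 ≤ L / (20 * l) := by
      rw [le_div_iff₀ (by linarith)]
      linarith
    have : (1 : ℝ) ≤ D := by linarith
    exact_mod_cast this
  have hDpos : (0 : ℝ) < D := by exact_mod_cast hD1
  have hDl : (D : ℝ) * (16 * l) ≤ L := by
    rwa [le_div_iff₀ h16] at hDle
  have hDL : 4 * (D : ℝ) ≤ L := by nlinarith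
  refine ⟨p, D, hp, hD1, ?_, hp3, ?_⟩
  · -- 2 (4D)^(4D) ≤ p
    have h1 : ((4 : ℝ) * D) ^ (4 * D) ≤ L ^ (4 * D) :=
      pow_le_pow_left₀ (by positivity) hDL _
    have h2 : L ^ (4 * D) = Real.exp (4 * D * l) := by
      have : L = Real.exp l := (Real.exp_log hLpos).symm
      conv_lhs => rw [this]
      rw [← Real.exp_nat_mul]
      push_cast
      rfl
    have h3 : Real.exp (4 * D * l) ≤ Real.exp (L / 4) := by
      apply Real.exp_le_exp.2
      linarith
    have h4 : 4 * Real.exp (L / 4) ≤ r := by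
      have h5 : r = Real.exp (L / 12) * Real.exp (L / 4) := by
        rw [hr, ← Real.exp_add]
        congr 1
        ring
      have h6 : 4 ≤ Real.exp (L / 12) := by
        have := Real.add_one_le_exp (L / 12)
        linarith
      rw [h5]
      exact mul_le_mul_of_nonneg_right h6 (Real.exp_pos _).le
    have h7 : (2 : ℝ) * (4 * D) ^ (4 * D) ≤ p := by
      rw [h2] at h1
      linarith
    exact_mod_cast h7
  · have hpp : (0 : ℝ) < p := lt_trans (by positivity) hpr
    have h96 : Real.log 96 ≤ 5 := by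
      rw [Real.log_le_iff_le_exp (by norm_num)]
      have h1 : (2.7 : ℝ) ≤ Real.exp 1 := le_trans (by norm_num) Real.exp_one_gt_d9.le
      have h2 : Real.exp 5 = Real.exp 1 ^ 5 := by
        rw [← Real.exp_nat_mul]
        norm_num
      rw [h2]
      have h3 : (2.7 : ℝ) ^ 5 ≤ Real.exp 1 ^ 5 := pow_le_pow_left₀ (by norm_num) h1 5
      exact le_trans (by norm_num) h3
    have hlogp : L / 3 - 1 ≤ Real.log p := by
      have h1 : Real.log (r / 2) ≤ Real.log p := Real.log_le_log (by positivity) hpr.le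
      rw [Real.log_div hrpos.ne' (by norm_num), hr, Real.log_exp] at h1
      have h2 : Real.log 2 ≤ 1 := le_trans Real.log_two_lt_d9.le (by norm_num)
      linarith
    have hlogD : Real.log D ≤ l := by
      apply Real.log_le_log hDpos
      linarith
    have hlog : L / 4 ≤ Real.log (p / (96 * D)) := by
      rw [Real.log_div hpp.ne' (by positivity), Real.log_mul (by norm_num) hDpos.ne']
      linarith
    have hx : (0 : ℝ) < p / (96 * D) := by positivity
    have hpow : ((p : ℝ) / (96 * D)) ^ D = Real.exp (D * Real.log (p / (96 * D))) := by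
      rw [Real.exp_nat_mul, Real.exp_log hx]
    rw [hpow]
    have h96' : (96 : ℝ) = Real.exp (Real.log 96) := (Real.exp_log (by norm_num)).symm
    have hfin : Real.log 96 + L ^ 2 / (100 * l) ≤ D * Real.log (p / (96 * D)) := by
      have h1 : L / (20 * l) * (L / 4) ≤ D * Real.log (p / (96 * D)) :=
        mul_le_mul hDge hlog (by positivity) hDpos.le
      have h2 : L / (20 * l) * (L / 4) = L ^ 2 / (100 * l) + L * (L / (400 * l)) := by
        field_simp
        ring
      have h3 : 1 / 5 ≤ L / (400 * l) := by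
        rw [le_div_iff₀ (by linarith)]
        linarith
      have h4 : 100 * (1 / 5) ≤ L * (L / (400 * l)) :=
        mul_le_mul h100 h3 (by norm_num) hLpos.le
      linarith
    calc 96 * Real.exp (L ^ 2 / (100 * l))
        = Real.exp (Real.log 96 + L ^ 2 / (100 * l)) := by rw [Real.exp_add, ← h96']
      _ ≤ Real.exp (D * Real.log (p / (96 * D))) := Real.exp_le_exp.2 hfin

theorem asy : AsyStatement := by
  have hlog : Tendsto (fun n : ℕ => Real.log (n : ℝ)) atTop atTop :=
    Real.tendsto_log_atTop.comp tendsto_natCast_atTop_atTop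
  have h := (hlog.eventually log_small).and (hlog.eventually (eventually_ge_atTop (100 : ℝ)))
  obtain ⟨N, hN⟩ := eventually_atTop.1 h
  exact ⟨N, fun n hn => asy_aux n (hN n hn).2 (hN n hn).1⟩

end Pool.Agent.Lib.MP_c5838f_co.SP.H15
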