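import Pool.Agent.Lib.MP_c5838f_co.SP.Iface

/-!
# SAMP: the sampling lemma
-/

set_option autoImplicit false

open Finset

namespace Pool.Agent.Lib.MP_c5838f_co.SP.H15

variable {V : Type} [AddCommGroup V] [Fintype V] [DecidableEq V]

/-- Functions which are `T`-free on the index set `I`. -/
def freeOn (T : Finset V) (M : ℕ) (I : Finset (Fin M)) : Finset (Fin M → V) :=
  {φ | ∀ i ∈ I, ∀ j ∈ I, i < j → φ i - φ j ∉ T}

/-- Functions whose difference at `i`, `j` is in `B`. -/
def badAt (B : Finset V) (M : ℕ) (i j : Fin M) : Finset (Fin M → V) :=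
  {φ | φ i - φ j ∈ B}

/-- `T`-free tuples. -/
def freeTup (T : Finset V) (s : ℕ) : Finset (Fin s → V) :=
  {x | (∀ i, x i ∈ (univ : Finset V)) ∧ ∀ i j, i < j → x i - x j ∉ T}

theorem card_freeOn_le (T : Finset V) (M s : ℕ) (I : Finset (Fin M)) (hI : #I = s) :
    #(freeOn T M I) ≤ #(freeTup T s) * Fintype.card V ^ (M - s) := by
  classical
  have hc : #(freeTup T s ×ˢ (univ : Finset ({i : Fin M // i ∉ I} → V)))
      = #(freeTup T s) * Fintype.card V ^ (M - s) := by
    rw [card_product, card_univ, Fintype.card_fun]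
    congr 2
    rw [Fintype.card_subtype_compl, Fintype.card_fin]
    simp [hI]
  rw [← hc]
  refine Finset.card_le_card_of_injOn
    (fun φ => (fun k => φ (I.orderEmbOfFin hI k), fun i => φ i.1)) ?_ ?_
  · intro φ hφ
    have hφ' := (mem_filter.1 (mem_coe.1 hφ)).2
    refine mem_coe.2 (mem_product.2 ⟨?_, mem_univ _⟩)
    refine mem_filter.2 ⟨mem_univ _, fun _ => mem_univ _, fun i j hij => ?_⟩
    exact hφ' _ (I.orderEmbOfFin_mem hI i) _ (I.orderEmbOfFin_mem hI j)
      ((I.orderEmbOfFin hI).strictMono hij)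
  · intro φ _ ψ _ h
    have h1 := (Prod.ext_iff.1 h).1
    have h2 := (Prod.ext_iff.1 h).2
    funext i
    by_cases hi : i ∈ I
    · have : i ∈ Set.range (I.orderEmbOfFin hI) := by
        rw [Finset.range_orderEmbOfFin]
        exact hi
      obtain ⟨k, rfl⟩ := this
      exact congrFun h1 k
    · exact congrFun h2 ⟨i, hi⟩

theorem card_badAt_le (B : Finset V) (M : ℕ) (i j : Fin M) (hij : i ≠ j) :
    #(badAt B M i j) ≤ #B * Fintype.card V ^ (M - 1) := by
  classical
  have hc : #(B ×ˢ (univ : Finset ({k : Fin M // k ≠ i} → V)))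
      = #B * Fintype.card V ^ (M - 1) := by
    rw [card_product, card_univ, Fintype.card_fun]
    congr 2
    rw [Fintype.card_subtype_compl, Fintype.card_fin]
    simp
  rw [← hc]
  refine Finset.card_le_card_of_injOn
    (fun φ => (φ i - φ j, fun k => φ k.1)) ?_ ?_
  · intro φ hφ
    have hφ' := (mem_filter.1 (mem_coe.1 hφ)).2
    exact mem_coe.2 (mem_product.2 ⟨hφ', mem_univ _⟩)
  · intro φ _ ψ _ h
    have h1 : φ i - φ j = ψ i - ψ j := (Prod.ext_iff.1 h).1
    have h2 := (Prod.ext_iff.1 h).2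
    have hj : φ j = ψ j := congrFun h2 ⟨j, hij.symm⟩
    funext k
    by_cases hk : k = i
    · subst hk
      rw [hj] at h1
      exact sub_left_injective h1
    · exact congrFun h2 ⟨k, hk⟩

theorem sum_lt (M : ℕ) : 2 * ∑ i : Fin M, #(Ioi i) = M * (M - 1) := by
  have h1 : ∑ i : Fin M, #(Ioi i) = ∑ i ∈ range M, (M - 1 - i) := by
    rw [← Fin.sum_univ_eq_sum_range (fun i => M - 1 - i) M]
    exact sum_congr rfl fun i _ => Fin.card_Ioi i
  rw [h1, Finset.sum_range_reflect (fun i => i) M, mul_comm, Finset.sum_range_id_mul_two]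

/-- From one good tuple to the set `C`. -/
theorem build (T B : Finset V) (M s : ℕ) (h0 : (0 : V) ∈ B) (hB : ∀ x ∈ B, -x ∈ B)
    (φ : Fin M → V)
    (hX : ∀ I : Finset (Fin M), #I = s → φ ∉ freeOn T M I)
    (hY : 2 * ∑ i : Fin M, #{j ∈ Ioi i | φ i - φ j ∈ B} < M) :
    ∃ C : Finset V, (∀ x ∈ C, ∀ y ∈ C, x ≠ y → x - y ∉ B) ∧
      ∀ (m : ℕ) (c : {x // x ∈ C} → Fin m),
        (∀ x y : {x // x ∈ C}, x.1 - y.1 ∈ T → c x ≠ c y) → M ≤ 2 * s * m := by
  classical
  set J : Finset (Fin M) := {i | ∀ j, i < j → φ i - φ j ∉ B} with hJ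
  have hJB : ∀ i ∈ J, ∀ j ∈ J, i ≠ j → φ i - φ j ∉ B := by
    intro i hi j hj hij
    rcases lt_or_gt_of_ne hij with h | h
    · exact (mem_filter.1 hi).2 j h
    · intro hb
      apply (mem_filter.1 hj).2 i h
      have := hB _ hb
      rwa [neg_sub] at this
  have hinj : Set.InjOn φ J := by
    intro i hi j hj h
    by_contra hij
    apply hJB i hi j hj hij
    rw [h, sub_self]
    exact h0
  have hJc : M ≤ #J + ∑ i : Fin M, #{j ∈ Ioi i | φ i - φ j ∈ B} := by
    have h1 : #J + #(univ \ J) = M := by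
      rw [add_comm, Finset.card_sdiff_add_card_eq_card (subset_univ J), card_univ, Fintype.card_fin]
    have h2 : #(univ \ J) ≤ ∑ i : Fin M, #{j ∈ Ioi i | φ i - φ j ∈ B} := by
      rw [card_eq_sum_ones]
      refine le_trans (sum_le_sum (g := fun i => #{j ∈ Ioi i | φ i - φ j ∈ B}) ?_)
        (sum_le_sum_of_subset (subset_univ _))
      intro i hi
      rw [mem_sdiff] at hi
      have hi2 := hi.2
      rw [hJ, mem_filter] at hi2
      push Not at hi2
      obtain ⟨j, hj1, hj2⟩ := hi2 (mem_univ _)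
      exact card_pos.2 ⟨j, mem_filter.2 ⟨mem_Ioi.2 hj1, hj2⟩⟩
    omega
  refine ⟨J.image φ, ?_, ?_⟩
  · intro x hx y hy hxy
    obtain ⟨i, hi, rfl⟩ := mem_image.1 hx
    obtain ⟨j, hj, rfl⟩ := mem_image.1 hy
    exact hJB i hi j hj (fun h => hxy (by rw [h]))
  · intro m c hc
    -- colour classes in `J`
    let col : {i // i ∈ J} → Fin m := fun i => c ⟨φ i.1, mem_image_of_mem φ i.2⟩
    have hclass : ∀ k : Fin m, #{i : {i // i ∈ J} | col i = k} ≤ s := by
      intro k
      by_contra hlt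
      push Not at hlt
      obtain ⟨t, ht, hts⟩ := exists_subset_card_eq hlt.le
      refine hX (t.map (Function.Embedding.subtype _)) (by rw [card_map, hts]) ?_
      refine mem_filter.2 ⟨mem_univ _, ?_⟩
      intro i hi j hj _ hT
      obtain ⟨i', hi', rfl⟩ := mem_map.1 hi
      obtain ⟨j', hj', rfl⟩ := mem_map.1 hj
      have h1 : col i' = k := (mem_filter.1 (ht hi')).2
      have h2 : col j' = k := (mem_filter.1 (ht hj')).2
      exact hc ⟨φ i'.1, mem_image_of_mem φ i'.2⟩ ⟨φ j'.1, mem_image_of_mem φ j'.2⟩ hT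
        (h1.trans h2.symm)
    have hcard : #J ≤ m * s := by
      have h1 : #(univ : Finset {i // i ∈ J}) = ∑ k : Fin m, #{i : {i // i ∈ J} | col i = k} :=
        card_eq_sum_card_fiberwise (fun _ _ => mem_univ _)
      have h2 : #(univ : Finset {i // i ∈ J}) = #J := by
        rw [card_univ, Fintype.card_coe]
      rw [← h2, h1]
      refine le_trans (sum_le_card_nsmul _ _ s fun k _ => hclass k) ?_
      simp
    have : M ≤ 2 * #J := by omega
    calc M ≤ 2 * #J := this
      _ ≤ 2 * (m * s) := Nat.mul_le_mul_left 2 hcard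
      _ = 2 * s * m := by ring

theorem samp (hFew : FewStatement) : SampStatement := by
  classical
  intro V _ _ _ T B θ g M s h0 hB hT hθ0 hθ1 hg hdeg hMB hsmall
  rcases Nat.eq_zero_or_pos M with rfl | hM
  · exact ⟨∅, by simp, fun m c _ => Nat.zero_le _⟩
  set v := Fintype.card V with hv
  have hvpos : 0 < v := Fintype.card_pos
  -- first moment bounds
  have hX : (∑ φ : Fin M → V, #{I ∈ powersetCard s (univ : Finset (Fin M)) | φ ∈ freeOn T M I} : ℝ)
      ≤ (v : ℝ) ^ M / 2 := by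
    have hsw : (∑ φ : Fin M → V, #{I ∈ powersetCard s (univ : Finset (Fin M)) | φ ∈ freeOn T M I} : ℝ)
        = ((∑ I ∈ powersetCard s (univ : Finset (Fin M)), #(freeOn T M I) : ℕ) : ℝ) := by
      have := sum_card_bipartiteAbove_eq_sum_card_bipartiteBelow
        (s := (univ : Finset (Fin M → V))) (t := powersetCard s (univ : Finset (Fin M)))
        (r := fun φ I => φ ∈ freeOn T M I)
      have h2 : ∀ I : Finset (Fin M), (univ : Finset (Fin M → V)).bipartiteBelow
          (fun φ I => φ ∈ freeOn T M I) I = freeOn T M I := by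
        intro I
        ext φ
        simp [bipartiteBelow]
      simp only [h2] at this
      rw [← this]
      push_cast
      rfl
    rw [hsw]
    by_cases hsM : s ≤ M
    · have hle : ((∑ I ∈ powersetCard s (univ : Finset (Fin M)), #(freeOn T M I) : ℕ) : ℝ)
          ≤ (M.choose s : ℝ) * ((#(freeTup T s) : ℝ) * (v : ℝ) ^ (M - s)) := by
        have : (∑ I ∈ powersetCard s (univ : Finset (Fin M)), #(freeOn T M I))
            ≤ M.choose s * (#(freeTup T s) * v ^ (M - s)) := by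
          refine le_trans (sum_le_card_nsmul _ _ (#(freeTup T s) * v ^ (M - s)) ?_) ?_
          · intro I hI
            exact card_freeOn_le T M s I (mem_powersetCard.1 hI).2
          · rw [card_powersetCard, card_univ, Fintype.card_fin, smul_eq_mul]
        exact_mod_cast this
      have hf : (#(freeTup T s) : ℝ) ≤ (2 * θ * (v : ℝ)) ^ s * θ⁻¹ ^ ((v : ℝ) / (g : ℝ)) := by
        have := hFew V T θ g hθ0 hθ1 hg hdeg s univ
        rw [card_univ] at this
        exact this
      refine le_trans hle ?_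
      have hpow : (v : ℝ) ^ M = (v : ℝ) ^ s * (v : ℝ) ^ (M - s) := by
        rw [← pow_add, Nat.add_sub_cancel' hsM]
      calc (M.choose s : ℝ) * ((#(freeTup T s) : ℝ) * (v : ℝ) ^ (M - s))
          ≤ (M.choose s : ℝ) * (((2 * θ * (v : ℝ)) ^ s * θ⁻¹ ^ ((v : ℝ) / (g : ℝ)))
              * (v : ℝ) ^ (M - s)) := by
            apply mul_le_mul_of_nonneg_left _ (Nat.cast_nonneg _)
            exact mul_le_mul_of_nonneg_right hf (by positivity)
        _ = ((M.choose s : ℝ) * (2 * θ) ^ s * θ⁻¹ ^ ((v : ℝ) / (g : ℝ))) * (v : ℝ) ^ M := by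
            rw [hpow, mul_pow (2 * θ) (v : ℝ) s]
            ring
        _ ≤ 1 / 2 * (v : ℝ) ^ M := mul_le_mul_of_nonneg_right hsmall (by positivity)
        _ = (v : ℝ) ^ M / 2 := by ring
    · rw [powersetCard_eq_empty.2 (by rw [card_univ, Fintype.card_fin]; omega), sum_empty]
      push_cast
      positivity
  have hY : 4 * ∑ φ : Fin M → V, ∑ i : Fin M, #{j ∈ Ioi i | φ i - φ j ∈ B} ≤ (M - 1) * v ^ M := by
    have h1 : ∑ φ : Fin M → V, ∑ i : Fin M, #{j ∈ Ioi i | φ i - φ j ∈ B}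
        = ∑ i : Fin M, ∑ j ∈ Ioi i, #(badAt B M i j) := by
      rw [sum_comm]
      refine sum_congr rfl fun i _ => ?_
      have := sum_card_bipartiteAbove_eq_sum_card_bipartiteBelow
        (s := (univ : Finset (Fin M → V))) (t := Ioi i)
        (r := fun φ j => φ i - φ j ∈ B)
      exact this
    have h2 : ∑ i : Fin M, ∑ j ∈ Ioi i, #(badAt B M i j)
        ≤ ∑ i : Fin M, #(Ioi i) * (#B * v ^ (M - 1)) := by
      refine sum_le_sum fun i _ => ?_
      have := sum_le_card_nsmul (Ioi i) (fun j => #(badAt B M i j)) (#B * v ^ (M - 1)) ?_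
      · simpa using this
      · intro j hj
        exact card_badAt_le B M i j (ne_of_lt (mem_Ioi.1 hj))
    rw [← sum_mul] at h2
    have h3 := sum_lt M
    have h4 : v ^ M = v ^ (M - 1) * v := by
      rw [← pow_succ]
      congr 1
      omega
    rw [h1]
    calc 4 * ∑ i : Fin M, ∑ j ∈ Ioi i, #(badAt B M i j)
        ≤ 4 * ((∑ i : Fin M, #(Ioi i)) * (#B * v ^ (M - 1))) := Nat.mul_le_mul_left 4 h2
      _ = (2 * ∑ i : Fin M, #(Ioi i)) * (2 * #B * v ^ (M - 1)) := by ring
      _ = (M - 1) * (v ^ (M - 1) * (2 * M * #B)) := by rw [h3]; ring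
      _ ≤ (M - 1) * (v ^ (M - 1) * v) :=
          Nat.mul_le_mul_left _ (Nat.mul_le_mul_left _ hMB)
      _ = (M - 1) * v ^ M := by rw [h4]
  -- one good tuple
  have hex : ∃ φ : Fin M → V,
      M * #{I ∈ powersetCard s (univ : Finset (Fin M)) | φ ∈ freeOn T M I}
        + 2 * ∑ i : Fin M, #{j ∈ Ioi i | φ i - φ j ∈ B} < M := by
    by_contra hno
    push Not at hno
    have h1 : v ^ M * M ≤ ∑ φ : Fin M → V,
        (M * #{I ∈ powersetCard s (univ : Finset (Fin M)) | φ ∈ freeOn T M I}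
        + 2 * ∑ i : Fin M, #{j ∈ Ioi i | φ i - φ j ∈ B}) := by
      have := card_nsmul_le_sum (univ : Finset (Fin M → V)) (fun φ =>
        (M * #{I ∈ powersetCard s (univ : Finset (Fin M)) | φ ∈ freeOn T M I}
        + 2 * ∑ i : Fin M, #{j ∈ Ioi i | φ i - φ j ∈ B})) M (fun φ _ => hno φ)
      rw [card_univ, Fintype.card_fun, Fintype.card_fin, smul_eq_mul] at this
      exact this
    rw [sum_add_distrib, ← mul_sum, ← mul_sum] at h1
    have h2 : ((v : ℝ) ^ M * M) ≤ (M : ℝ) * (∑ φ : Fin M → V,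
        #{I ∈ powersetCard s (univ : Finset (Fin M)) | φ ∈ freeOn T M I} : ℝ)
        + 2 * ((∑ φ : Fin M → V, ∑ i : Fin M, #{j ∈ Ioi i | φ i - φ j ∈ B} : ℕ) : ℝ) := by
      exact_mod_cast h1
    have h3 : 4 * ((∑ φ : Fin M → V, ∑ i : Fin M, #{j ∈ Ioi i | φ i - φ j ∈ B} : ℕ) : ℝ)
        ≤ ((M : ℝ) - 1) * (v : ℝ) ^ M := by
      have : ((M - 1 : ℕ) : ℝ) = (M : ℝ) - 1 := by
        push_cast [Nat.cast_sub hM]
        ring
      rw [← this]
      exact_mod_cast hY
    have h4 := mul_le_mul_of_nonneg_left hX (Nat.cast_nonneg (α := ℝ) M)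
    have h5 : (0 : ℝ) < (v : ℝ) ^ M := by positivity
    nlinarith
  obtain ⟨φ, hφ⟩ := hex
  refine build T B M s h0 hB φ ?_ ?_
  · intro I hI hfree
    have : 1 ≤ #{I ∈ powersetCard s (univ : Finset (Fin M)) | φ ∈ freeOn T M I} :=
      card_pos.2 ⟨I, mem_filter.2 ⟨mem_powersetCard.2 ⟨subset_univ _, hI⟩, hfree⟩⟩
    have h2 : M * 1 ≤ M * #{I ∈ powersetCard s (univ : Finset (Fin M)) | φ ∈ freeOn T M I} :=
      Nat.mul_le_mul_left M this
    omega
  · omega

end Pool.Agent.Lib.MP_c5838f_co.SP.H15
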